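import Mathlib

/-!
# A nonregular rhombic dodecahedron with the circumradius of the regular one

The generators of the regular rhombic dodecahedron in `ℝ³` are the four alternate vertices `yᵢ`
of the cube.  Translating the generators, `xᵢ = yᵢ + m`, changes neither the volume (it is six
times the volume of the simplex with vertices `xᵢ` as long as this contains the origin) nor, for
small `m`, the circumradius (attained at balanced sign vectors).
-/

namespace Pool.Agent.Results.MP_de3f1f_gt.NonregularMinimiser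

open MeasureTheory Set Metric
open scoped Pointwise

/-- Euclidean space. -/
abbrev E (d : ℕ) := EuclideanSpace ℝ (Fin d)

/-- The zonotope `∑ [o, xᵢ]`. -/
def zonotope {d n : ℕ} (x : Fin n → E d) : Set (E d) :=
  {z | ∃ t : Fin n → ℝ, (∀ i, 0 ≤ t i ∧ t i ≤ 1) ∧ z = ∑ i, t i • x i}

/-- A `d`-dimensional zonotope in `ℝ^d` generated by `d + 1` segments (up to translation all of
them are of the form `∑ [o, xᵢ]`; translates are allowed). -/
def IsRhombicDodecahedron {d : ℕ} (Z : Set (E d)) : Prop :=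
  ∃ (v : E d) (x : Fin (d + 1) → E d), Submodule.span ℝ (range x) = ⊤ ∧
    Z = (fun z => v + z) '' zonotope x

/-- The points `pᵢ` are the vertices of a regular simplex centred at the origin. -/
def IsCentredRegularSimplex {d : ℕ} (p : Fin (d + 1) → E d) : Prop :=
  ∑ i, p i = 0 ∧ ∃ ℓ : ℝ, 0 < ℓ ∧ ∀ i j, i ≠ j → dist (p i) (p j) = ℓ

/-- Regular rhombic dodecahedra. -/
def IsRegular {d : ℕ} (Z : Set (E d)) : Prop :=
  ∃ (v : E d) (p : Fin (d + 1) → E d), IsCentredRegularSimplex p ∧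
    Z = (fun z => v + z) '' zonotope p

/-- The circumradius: the least radius of a closed ball containing the set. -/
noncomputable def circumradius {d : ℕ} (Z : Set (E d)) : ℝ :=
  sInf {r : ℝ | 0 ≤ r ∧ ∃ c : E d, Z ⊆ closedBall c r}

/-! ### Volume of zonotopes with four generators in space -/

lemma volume_parallelepiped (v : Fin 3 → E 3) :
    volume (parallelepiped v)
      = ENNReal.ofReal |Matrix.det (Matrix.of fun i j : Fin 3 => v j i)| := by
  have h := Measure.addHaar_parallelepiped (EuclideanSpace.basisFun (Fin 3) ℝ).toBasis v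
  rw [OrthonormalBasis.addHaar_eq_volume] at h
  rw [h, Module.Basis.det_apply]
  congr 3

lemma parallelepiped_subset (x : Fin 4 → E 3) (i : Fin 4) (p : E 3)
    (hp : p ∈ parallelepiped (fun k : Fin 3 => x (i.succAbove k))) :
    ∃ a : Fin 4 → ℝ, (∀ k, 0 ≤ a k ∧ a k ≤ 1) ∧ a i = 0 ∧ p = ∑ k, a k • x k := by
  rw [mem_parallelepiped_iff] at hp
  obtain ⟨t, ht, rfl⟩ := hp
  refine ⟨Fin.insertNth i 0 t, ?_, by simp, ?_⟩
  · intro k
    by_cases hk : k = i
    · subst hk; simp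
    · obtain ⟨l, rfl⟩ := Fin.exists_succAbove_eq hk
      rw [Fin.insertNth_apply_succAbove]
      exact ⟨ht.1 l, ht.2 l⟩
  · rw [Fin.sum_univ_succAbove _ i]
    simp

lemma mem_parallelepiped_of (x : Fin 4 → E 3) (i : Fin 4) (a : Fin 4 → ℝ)
    (ha : ∀ k, 0 ≤ a k ∧ a k ≤ 1) (hai : a i = 0) :
    ∑ k, a k • x k ∈ parallelepiped (fun k : Fin 3 => x (i.succAbove k)) := by
  rw [mem_parallelepiped_iff]
  refine ⟨fun k => a (i.succAbove k), ⟨fun k => (ha _).1, fun k => (ha _).2⟩, ?_⟩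
  rw [Fin.sum_univ_succAbove _ i, hai, zero_smul, zero_add]

lemma zonotope_eq_iUnion (x : Fin 4 → E 3) (w : Fin 4 → ℝ) (hw : ∀ i, 0 < w i)
    (hrel : ∑ i, w i • x i = 0) :
    zonotope x = ⋃ i : Fin 4, parallelepiped (fun k : Fin 3 => x (i.succAbove k)) := by
  ext p
  rw [mem_iUnion]
  constructor
  · rintro ⟨t, ht, rfl⟩
    obtain ⟨i, _, hi⟩ := Finset.exists_min_image Finset.univ (fun i => t i / w i)
      Finset.univ_nonempty
    refine ⟨i, ?_⟩
    set c : ℝ := t i / w i with hc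
    have hc0 : 0 ≤ c := div_nonneg (ht i).1 (hw i).le
    have e : ∑ k, t k • x k = ∑ k, (t k - c * w k) • x k := by
      simp_rw [sub_smul, Finset.sum_sub_distrib, mul_smul, ← Finset.smul_sum]
      rw [hrel, smul_zero, sub_zero]
    rw [e]
    apply mem_parallelepiped_of
    · intro k
      have h1 := hi k (Finset.mem_univ k)
      rw [le_div_iff₀ (hw k)] at h1
      have h2 : 0 ≤ c * w k := mul_nonneg hc0 (hw k).le
      constructor
      · linarith
      · linarith [(ht k).2]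
    · rw [hc]
      field_simp [(hw i).ne']
      ring
  · rintro ⟨i, hi⟩
    obtain ⟨a, ha, _, rfl⟩ := parallelepiped_subset x i p hi
    exact ⟨a, ha, rfl⟩

lemma isCompact_parallelepiped' (v : Fin 3 → E 3) : IsCompact (parallelepiped v) := by
  unfold parallelepiped
  apply isCompact_Icc.image
  fun_prop

lemma volume_zonotope (x : Fin 4 → E 3) (w : Fin 4 → ℝ) (hw : ∀ i, 0 < w i)
    (hrel : ∑ i, w i • x i = 0)
    (huniq : ∀ c : Fin 4 → ℝ, ∑ i, c i • x i = 0 → ∃ k : ℝ, ∀ i, c i = k * w i) :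
    volume (zonotope x)
      = ∑ i : Fin 4, volume (parallelepiped (fun k : Fin 3 => x (i.succAbove k))) := by
  rw [zonotope_eq_iUnion x w hw hrel, measure_iUnion₀, tsum_fintype]
  · intro i j hij
    change volume (parallelepiped (fun k : Fin 3 => x (i.succAbove k))
      ∩ parallelepiped (fun k : Fin 3 => x (j.succAbove k))) = 0
    -- the intersection lies in a plane
    set K : Submodule ℝ (E 3) :=
      Submodule.span ℝ (x '' {k | k ≠ i ∧ k ≠ j}) with hK
    have hKtop : K ≠ ⊤ := by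
      intro htop
      have h1 : Module.finrank ℝ K ≤ 2 := by
        have h2 : ({k : Fin 4 | k ≠ i ∧ k ≠ j} : Set (Fin 4))
            = ((Finset.univ.erase i).erase j : Finset (Fin 4)) := by
          ext k
          simp [and_comm]
        have h3 : x '' {k | k ≠ i ∧ k ≠ j}
            = ((((Finset.univ.erase i).erase j).image x : Finset (E 3)) : Set (E 3)) := by
          rw [h2, Finset.coe_image]
        rw [hK, h3]
        refine (finrank_span_finset_le_card _).trans ?_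
        refine Finset.card_image_le.trans ?_
        rw [Finset.card_erase_of_mem, Finset.card_erase_of_mem]
        · simp
        · simp
        · simp [hij.symm]
      rw [htop, finrank_top] at h1
      simp at h1
    apply measure_mono_null _ (Measure.addHaar_submodule volume K hKtop)
    rintro p ⟨hp1, hp2⟩
    obtain ⟨a, ha, hai, hpa⟩ := parallelepiped_subset x i p hp1
    obtain ⟨b, hb, hbj, hpb⟩ := parallelepiped_subset x j p hp2
    have h4 : ∑ k, (a k - b k) • x k = 0 := by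
      simp_rw [sub_smul, Finset.sum_sub_distrib]
      rw [← hpa, ← hpb, sub_self]
    obtain ⟨c, hc⟩ := huniq _ h4
    have h5 := hc i
    have h6 := hc j
    rw [hai] at h5
    rw [hbj] at h6
    have hc0 : c = 0 := by
      rcases lt_trichotomy c 0 with h | h | h
      · have := (ha j).1
        have h7 : c * w j < 0 := mul_neg_of_neg_of_pos h (hw j)
        linarith
      · exact h
      · have := (hb i).1
        have h7 : 0 < c * w i := mul_pos h (hw i)
        linarith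
    rw [hc0, zero_mul, sub_zero] at h6
    rw [hpa]
    apply Submodule.sum_mem
    intro k _
    by_cases hki : k = i
    · rw [hki, hai, zero_smul]; exact K.zero_mem
    · by_cases hkj : k = j
      · rw [hkj, h6, zero_smul]; exact K.zero_mem
      · exact K.smul_mem _ (Submodule.subset_span ⟨k, ⟨hki, hkj⟩, rfl⟩)
  · intro i
    exact (isCompact_parallelepiped' _).measurableSet.nullMeasurableSet

/-! ### The family of generators -/

/-- The generators, scaled by `lam` and shifted by `μ`. -/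
noncomputable def gen (lam μ : ℝ) : Fin 4 → E 3 :=
  ![!₂[lam * (1 + μ), lam, lam], !₂[lam * (1 + μ), -lam, -lam],
    !₂[lam * (-1 + μ), lam, -lam], !₂[lam * (-1 + μ), -lam, lam]]

/-- The relation. -/
noncomputable def wt (μ : ℝ) : Fin 4 → ℝ := ![1 - μ, 1 - μ, 1 + μ, 1 + μ]

lemma gen_rel (lam μ : ℝ) : ∑ i, wt μ i • gen lam μ i = 0 := by
  rw [Fin.sum_univ_four]
  ext j
  fin_cases j
  · simp [wt, gen]; ring
  · simp [wt, gen]
  · simp [wt, gen]

lemma gen_uniq (lam μ : ℝ) (hlam : 0 < lam) (hμ : μ < 1) (c : Fin 4 → ℝ)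
    (hc : ∑ i, c i • gen lam μ i = 0) : ∃ k : ℝ, ∀ i, c i = k * wt μ i := by
  rw [Fin.sum_univ_four] at hc
  have h0 := congrArg (fun y : E 3 => y 0) hc
  have h1 := congrArg (fun y : E 3 => y 1) hc
  have h2 := congrArg (fun y : E 3 => y 2) hc
  simp [gen] at h0 h1 h2
  have e1 : c 0 - c 1 + c 2 - c 3 = 0 := by
    apply mul_left_cancel₀ hlam.ne'
    linarith
  have e2 : c 0 - c 1 - c 2 + c 3 = 0 := by
    apply mul_left_cancel₀ hlam.ne'
    linarith
  have e0 : (c 0 + c 1) * (1 + μ) + (c 2 + c 3) * (-1 + μ) = 0 := by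
    apply mul_left_cancel₀ hlam.ne'
    linarith
  have e3 : c 0 = c 1 := by linarith
  have e4 : c 2 = c 3 := by linarith
  have e5 : c 1 * (1 + μ) = c 3 * (1 - μ) := by
    rw [e3, e4] at e0
    linarith
  refine ⟨c 0 / (1 - μ), ?_⟩
  have hne : (1 - μ) ≠ 0 := by linarith
  intro i
  fin_cases i
  · simp [wt]; field_simp
  · simp [wt]; rw [e3]; field_simp
  · simp [wt]
    rw [e3, e4]
    field_simp
    linarith
  · simp [wt]
    rw [e3]
    field_simp
    linarith

lemma volume_gen (lam μ : ℝ) (hlam : 0 < lam) (hμ : μ < 1) (hμ' : -1 < μ) :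
    volume (zonotope (gen lam μ)) = ENNReal.ofReal (16 * lam ^ 3) := by
  rw [volume_zonotope (gen lam μ) (wt μ) ?_ (gen_rel lam μ) (gen_uniq lam μ hlam hμ)]
  · simp_rw [volume_parallelepiped]
    rw [Fin.sum_univ_four]
    have hl3 : 0 < lam ^ 3 := by positivity
    have hm1 : 0 < 1 - μ := by linarith
    have hm2 : 0 < 1 + μ := by linarith
    have d0 : |Matrix.det (Matrix.of fun i j : Fin 3 =>
        gen lam μ ((0 : Fin 4).succAbove j) i)| = 4 * lam ^ 3 * (1 - μ) := by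
      have : Matrix.det (Matrix.of fun i j : Fin 3 => gen lam μ ((0 : Fin 4).succAbove j) i)
          = -(4 * lam ^ 3 * (1 - μ)) ∨
          Matrix.det (Matrix.of fun i j : Fin 3 => gen lam μ ((0 : Fin 4).succAbove j) i)
          = (4 * lam ^ 3 * (1 - μ)) := by
        rw [Matrix.det_fin_three]
        simp [gen, Fin.succAbove]
        first | (left; ring1) | (right; ring1)
      rcases this with h | h <;> rw [h] <;> simp [abs_mul, abs_of_pos hm1, abs_of_pos hlam]
    have d1 : |Matrix.det (Matrix.of fun i j : Fin 3 =>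
        gen lam μ ((1 : Fin 4).succAbove j) i)| = 4 * lam ^ 3 * (1 - μ) := by
      have : Matrix.det (Matrix.of fun i j : Fin 3 => gen lam μ ((1 : Fin 4).succAbove j) i)
          = -(4 * lam ^ 3 * (1 - μ)) ∨
          Matrix.det (Matrix.of fun i j : Fin 3 => gen lam μ ((1 : Fin 4).succAbove j) i)
          = (4 * lam ^ 3 * (1 - μ)) := by
        rw [Matrix.det_fin_three]
        simp [gen, Fin.succAbove]
        first | (left; ring1) | (right; ring1)
      rcases this with h | h <;> rw [h] <;> simp [abs_mul, abs_of_pos hm1, abs_of_pos hlam]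
    have d2 : |Matrix.det (Matrix.of fun i j : Fin 3 =>
        gen lam μ ((2 : Fin 4).succAbove j) i)| = 4 * lam ^ 3 * (1 + μ) := by
      have : Matrix.det (Matrix.of fun i j : Fin 3 => gen lam μ ((2 : Fin 4).succAbove j) i)
          = -(4 * lam ^ 3 * (1 + μ)) ∨
          Matrix.det (Matrix.of fun i j : Fin 3 => gen lam μ ((2 : Fin 4).succAbove j) i)
          = (4 * lam ^ 3 * (1 + μ)) := by
        rw [Matrix.det_fin_three]
        simp [gen, Fin.succAbove]
        first | (left; ring1) | (right; ring1)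
      rcases this with h | h <;> rw [h] <;> simp [abs_mul, abs_of_pos hm2, abs_of_pos hlam]
    have d3 : |Matrix.det (Matrix.of fun i j : Fin 3 =>
        gen lam μ ((3 : Fin 4).succAbove j) i)| = 4 * lam ^ 3 * (1 + μ) := by
      have : Matrix.det (Matrix.of fun i j : Fin 3 => gen lam μ ((3 : Fin 4).succAbove j) i)
          = -(4 * lam ^ 3 * (1 + μ)) ∨
          Matrix.det (Matrix.of fun i j : Fin 3 => gen lam μ ((3 : Fin 4).succAbove j) i)
          = (4 * lam ^ 3 * (1 + μ)) := by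
        rw [Matrix.det_fin_three]
        simp [gen, Fin.succAbove]
        first | (left; ring1) | (right; ring1)
      rcases this with h | h <;> rw [h] <;> simp [abs_mul, abs_of_pos hm2, abs_of_pos hlam]
    rw [d0, d1, d2, d3, ← ENNReal.ofReal_add (by positivity) (by positivity),
      ← ENNReal.ofReal_add (by positivity) (by positivity),
      ← ENNReal.ofReal_add (by positivity) (by positivity)]
    congr 1
    ring
  · intro i
    fin_cases i <;> simp [wt] <;> linarith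

/-! ### Circumradius -/

lemma norm_sq3 (x : E 3) : ‖x‖ ^ 2 = x 0 ^ 2 + x 1 ^ 2 + x 2 ^ 2 := by
  rw [EuclideanSpace.real_norm_sq_eq, Fin.sum_univ_three]

lemma inner3 (x y : E 3) : (inner ℝ x y : ℝ) = x 0 * y 0 + x 1 * y 1 + x 2 * y 2 := by
  simp [PiLp.inner_apply, Fin.sum_univ_three, mul_comm]

/-- A convex function of one real variable is maximal at an end point. -/
lemma norm_le_of_ends (a x : E 3) (s M : ℝ) (hs : |s| ≤ 1) (h1 : ‖a + x‖ ≤ M)
    (h2 : ‖a - x‖ ≤ M) : ‖a + s • x‖ ≤ M := by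
  obtain ⟨hs1, hs2⟩ := abs_le.mp hs
  have e : a + s • x = ((1 + s) / 2) • (a + x) + ((1 - s) / 2) • (a - x) := by module
  rw [e]
  calc ‖((1 + s) / 2) • (a + x) + ((1 - s) / 2) • (a - x)‖
      ≤ ‖((1 + s) / 2) • (a + x)‖ + ‖((1 - s) / 2) • (a - x)‖ := norm_add_le _ _
    _ = (1 + s) / 2 * ‖a + x‖ + (1 - s) / 2 * ‖a - x‖ := by
      rw [norm_smul, norm_smul, Real.norm_of_nonneg (by linarith),
        Real.norm_of_nonneg (by linarith)]
    _ ≤ (1 + s) / 2 * M + (1 - s) / 2 * M :=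
      add_le_add (mul_le_mul_of_nonneg_left h1 (by linarith))
        (mul_le_mul_of_nonneg_left h2 (by linarith))
    _ = M := by ring

lemma norm_le_of_sq {x : E 3} {M : ℝ} (hM : 0 ≤ M) (h : x 0 ^ 2 + x 1 ^ 2 + x 2 ^ 2 ≤ M ^ 2) :
    ‖x‖ ≤ M := by
  rw [← norm_sq3] at h
  exact (pow_le_pow_iff_left₀ (norm_nonneg _) hM two_ne_zero).mp h

/-- The sixteen sign sums. -/
lemma sign_sum (lam μ : ℝ) (hlam : 0 < lam) (h0 : 0 ≤ μ) (h1 : μ ≤ 1 / 5)
    (a b c d : ℝ) (ha : a = 1 ∨ a = -1) (hb : b = 1 ∨ b = -1) (hc : c = 1 ∨ c = -1)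
    (hd : d = 1 ∨ d = -1) :
    ‖a • gen lam μ 0 + b • gen lam μ 1 + c • gen lam μ 2 + d • gen lam μ 3‖ ≤ 4 * lam := by
  apply norm_le_of_sq (by linarith)
  have hl : 0 < lam ^ 2 := by positivity
  have hμ2 : μ ^ 2 ≤ 1 / 25 := by nlinarith
  have k1 : 0 ≤ lam ^ 2 * (1 / 5 - μ) := mul_nonneg hl.le (by linarith)
  have k2 : 0 ≤ lam ^ 2 * (1 / 25 - μ ^ 2) := mul_nonneg hl.le (by linarith)
  have k3 : 0 ≤ lam ^ 2 * μ := mul_nonneg hl.le h0
  rcases ha with rfl | rfl <;> rcases hb with rfl | rfl <;> rcases hc with rfl | rfl <;>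
    rcases hd with rfl | rfl <;> simp [gen] <;> nlinarith

lemma norm_comb_le (lam μ : ℝ) (hlam : 0 < lam) (h0 : 0 ≤ μ) (h1 : μ ≤ 1 / 5)
    (a b c d : ℝ) (ha : |a| ≤ 1) (hb : |b| ≤ 1) (hc : |c| ≤ 1) (hd : |d| ≤ 1) :
    ‖a • gen lam μ 0 + b • gen lam μ 1 + c • gen lam μ 2 + d • gen lam μ 3‖ ≤ 4 * lam := by
  have s := sign_sum lam μ hlam h0 h1
  set x0 := gen lam μ 0
  set x1 := gen lam μ 1
  set x2 := gen lam μ 2
  set x3 := gen lam μ 3
  have one : (1:ℝ) = 1 ∨ (1:ℝ) = -1 := Or.inl rfl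
  have neg : (-1:ℝ) = 1 ∨ (-1:ℝ) = -1 := Or.inr rfl
  -- first coordinate
  have t1 : ∀ b c d : ℝ, (b = 1 ∨ b = -1) → (c = 1 ∨ c = -1) → (d = 1 ∨ d = -1) →
      ‖a • x0 + b • x1 + c • x2 + d • x3‖ ≤ 4 * lam := by
    intro b c d hb hc hd
    have e : a • x0 + b • x1 + c • x2 + d • x3 = (b • x1 + c • x2 + d • x3) + a • x0 := by abel
    rw [e]
    apply norm_le_of_ends _ _ _ _ ha
    · have := s 1 b c d one hb hc hd
      have e' : (1:ℝ) • x0 + b • x1 + c • x2 + d • x3 = (b • x1 + c • x2 + d • x3) + x0 := by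
        module
      rwa [e'] at this
    · have := s (-1) b c d neg hb hc hd
      have e' : (-1:ℝ) • x0 + b • x1 + c • x2 + d • x3 = (b • x1 + c • x2 + d • x3) - x0 := by
        module
      rwa [e'] at this
  have t2 : ∀ c d : ℝ, (c = 1 ∨ c = -1) → (d = 1 ∨ d = -1) →
      ‖a • x0 + b • x1 + c • x2 + d • x3‖ ≤ 4 * lam := by
    intro c d hc hd
    have e : a • x0 + b • x1 + c • x2 + d • x3 = (a • x0 + c • x2 + d • x3) + b • x1 := by abel
    rw [e]
    apply norm_le_of_ends _ _ _ _ hb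
    · have := t1 1 c d one hc hd
      have e' : a • x0 + (1:ℝ) • x1 + c • x2 + d • x3 = (a • x0 + c • x2 + d • x3) + x1 := by
        module
      rwa [e'] at this
    · have := t1 (-1) c d neg hc hd
      have e' : a • x0 + (-1:ℝ) • x1 + c • x2 + d • x3 = (a • x0 + c • x2 + d • x3) - x1 := by
        module
      rwa [e'] at this
  have t3 : ∀ d : ℝ, (d = 1 ∨ d = -1) →
      ‖a • x0 + b • x1 + c • x2 + d • x3‖ ≤ 4 * lam := by
    intro d hd
    have e : a • x0 + b • x1 + c • x2 + d • x3 = (a • x0 + b • x1 + d • x3) + c • x2 := by abel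
    rw [e]
    apply norm_le_of_ends _ _ _ _ hc
    · have := t2 1 d one hd
      have e' : a • x0 + b • x1 + (1:ℝ) • x2 + d • x3 = (a • x0 + b • x1 + d • x3) + x2 := by
        module
      rwa [e'] at this
    · have := t2 (-1) d neg hd
      have e' : a • x0 + b • x1 + (-1:ℝ) • x2 + d • x3 = (a • x0 + b • x1 + d • x3) - x2 := by
        module
      rwa [e'] at this
  apply norm_le_of_ends _ _ _ _ hd
  · have := t3 1 one
    have e' : a • x0 + b • x1 + c • x2 + (1:ℝ) • x3 = (a • x0 + b • x1 + c • x2) + x3 := by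
      module
    rwa [e'] at this
  · have := t3 (-1) neg
    have e' : a • x0 + b • x1 + c • x2 + (-1:ℝ) • x3 = (a • x0 + b • x1 + c • x2) - x3 := by
      module
    rwa [e'] at this

lemma circumradius_gen (lam μ : ℝ) (hlam : 0 < lam) (h0 : 0 ≤ μ) (h1 : μ ≤ 1 / 5) :
    circumradius (zonotope (gen lam μ)) = 2 * lam := by
  set Z := zonotope (gen lam μ) with hZ
  have hmem : (2 * lam) ∈ {r : ℝ | 0 ≤ r ∧ ∃ c : E 3, Z ⊆ closedBall c r} := by
    refine ⟨by linarith, (1 / 2 : ℝ) • ∑ i, gen lam μ i, ?_⟩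
    rintro z ⟨t, ht, rfl⟩
    rw [mem_closedBall, dist_eq_norm]
    have e : ∑ i, t i • gen lam μ i - (1 / 2 : ℝ) • ∑ i, gen lam μ i
        = (1 / 2 : ℝ) • ((2 * t 0 - 1) • gen lam μ 0 + (2 * t 1 - 1) • gen lam μ 1
          + (2 * t 2 - 1) • gen lam μ 2 + (2 * t 3 - 1) • gen lam μ 3) := by
      rw [Fin.sum_univ_four, Fin.sum_univ_four]
      module
    rw [e, norm_smul]
    have habs : ∀ i, |2 * t i - 1| ≤ 1 := by
      intro i
      rw [abs_le]
      constructor <;> linarith [(ht i).1, (ht i).2]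
    have h := norm_comb_le lam μ hlam h0 h1 _ _ _ _ (habs 0) (habs 1) (habs 2) (habs 3)
    rw [Real.norm_of_nonneg (by norm_num)]
    linarith
  apply le_antisymm
  · exact csInf_le ⟨0, fun r hr => hr.1⟩ hmem
  · apply le_csInf ⟨_, hmem⟩
    rintro r ⟨_, c, hc⟩
    have hA : gen lam μ 0 + gen lam μ 1 ∈ Z := by
      refine ⟨![1, 1, 0, 0], ?_, ?_⟩
      · intro i
        fin_cases i <;> simp
      · rw [Fin.sum_univ_four]
        simp
    have hB : gen lam μ 2 + gen lam μ 3 ∈ Z := by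
      refine ⟨![0, 0, 1, 1], ?_, ?_⟩
      · intro i
        fin_cases i <;> simp
      · rw [Fin.sum_univ_four]
        simp
    have hAc := mem_closedBall.mp (hc hA)
    have hBc := mem_closedBall.mp (hc hB)
    have hAB : dist (gen lam μ 0 + gen lam μ 1) (gen lam μ 2 + gen lam μ 3) = 4 * lam := by
      rw [dist_eq_norm]
      have h2 : ‖gen lam μ 0 + gen lam μ 1 - (gen lam μ 2 + gen lam μ 3)‖ ^ 2
          = (4 * lam) ^ 2 := by
        rw [norm_sq3]
        simp [gen]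
        ring
      exact (pow_left_inj₀ (norm_nonneg _) (by linarith) two_ne_zero).mp h2
    have := dist_triangle_right (gen lam μ 0 + gen lam μ 1) (gen lam μ 2 + gen lam μ 3) c
    linarith

lemma span_gen (lam μ : ℝ) (hlam : 0 < lam) :
    Submodule.span ℝ (range (gen lam μ)) = ⊤ := by
  rw [eq_top_iff]
  rintro z -
  have h : ∀ i, gen lam μ i ∈ Submodule.span ℝ (range (gen lam μ)) :=
    fun i => Submodule.subset_span ⟨i, rfl⟩
  -- explicit combination
  have e : z = ((z 0 - μ * z 1 * 0) / (4 * lam)) • (gen lam μ 0 + gen lam μ 1 - gen lam μ 2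
      - gen lam μ 3) + (z 1 / (4 * lam)) • (gen lam μ 0 - gen lam μ 1 + gen lam μ 2
      - gen lam μ 3) + (z 2 / (4 * lam)) • (gen lam μ 0 - gen lam μ 1 - gen lam μ 2
      + gen lam μ 3) := by
    ext i
    fin_cases i
    · simp [gen]; field_simp; ring
    · simp [gen]; field_simp; ring
    · simp [gen]; field_simp; ring
  rw [e]
  set K := Submodule.span ℝ (range (gen lam μ))
  refine K.add_mem (K.add_mem (K.smul_mem _ ?_) (K.smul_mem _ ?_)) (K.smul_mem _ ?_)
  · exact K.sub_mem (K.sub_mem (K.add_mem (h 0) (h 1)) (h 2)) (h 3)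
  · exact K.sub_mem (K.add_mem (K.sub_mem (h 0) (h 1)) (h 2)) (h 3)
  · exact K.add_mem (K.sub_mem (K.sub_mem (h 0) (h 1)) (h 2)) (h 3)

/-! ### Nonregularity -/

/-- The width of a zonotope. -/
lemma width_le {n : ℕ} (x : Fin n → E 3) (u z z' : E 3) (hz : z ∈ zonotope x)
    (hz' : z' ∈ zonotope x) : (inner ℝ u (z - z') : ℝ) ≤ ∑ i, |inner ℝ u (x i)| := by
  obtain ⟨t, ht, rfl⟩ := hz
  obtain ⟨s, hs, rfl⟩ := hz'
  rw [← Finset.sum_sub_distrib, inner_sum]
  apply Finset.sum_le_sum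
  intro i _
  rw [← sub_smul, inner_smul_right]
  have h1 : |t i - s i| ≤ 1 := by
    rw [abs_le]
    constructor <;> linarith [(ht i).1, (ht i).2, (hs i).1, (hs i).2]
  calc (t i - s i) * inner ℝ u (x i) ≤ |(t i - s i) * inner ℝ u (x i)| := le_abs_self _
    _ = |t i - s i| * |inner ℝ u (x i)| := abs_mul _ _
    _ ≤ 1 * |inner ℝ u (x i)| := mul_le_mul_of_nonneg_right h1 (abs_nonneg _)
    _ = _ := one_mul _

lemma width_attained {n : ℕ} (x : Fin n → E 3) (u : E 3) :
    ∃ z ∈ zonotope x, ∃ z' ∈ zonotope x, (inner ℝ u (z - z') : ℝ) = ∑ i, |inner ℝ u (x i)| := by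
  classical
  refine ⟨∑ i, (if 0 ≤ (inner ℝ u (x i) : ℝ) then (1:ℝ) else 0) • x i, ⟨_, ?_, rfl⟩,
    ∑ i, (if 0 ≤ (inner ℝ u (x i) : ℝ) then (0:ℝ) else 1) • x i, ⟨_, ?_, rfl⟩, ?_⟩
  · intro i; split_ifs <;> simp
  · intro i; split_ifs <;> simp
  · rw [← Finset.sum_sub_distrib, inner_sum]
    apply Finset.sum_congr rfl
    intro i _
    rw [← sub_smul, inner_smul_right]
    split_ifs with h
    · rw [abs_of_nonneg h]; ring
    · rw [abs_of_neg (not_le.mp h)]; ring

lemma width_eq {n k : ℕ} (x : Fin n → E 3) (p : Fin k → E 3) (v : E 3)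
    (h : zonotope x = (fun z => v + z) '' zonotope p) (u : E 3) :
    ∑ i, |inner ℝ u (x i)| = ∑ i, |(inner ℝ u (p i) : ℝ)| := by
  apply le_antisymm
  · obtain ⟨z, hz, z', hz', hzz⟩ := width_attained x u
    rw [h] at hz hz'
    obtain ⟨y, hy, rfl⟩ := hz
    obtain ⟨y', hy', rfl⟩ := hz'
    rw [← hzz]
    have := width_le p u y y' hy hy'
    simpa using this
  · obtain ⟨y, hy, y', hy', hyy⟩ := width_attained p u
    have h1 : v + y ∈ zonotope x := by rw [h]; exact ⟨y, hy, rfl⟩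
    have h2 : v + y' ∈ zonotope x := by rw [h]; exact ⟨y', hy', rfl⟩
    have := width_le x u _ _ h1 h2
    rw [← hyy]
    simpa using this

/-- Gram matrix of a centred regular simplex in space. -/
lemma gram (p : Fin 4 → E 3) (hp : IsCentredRegularSimplex p) :
    ∃ a : ℝ, 0 < a ∧ (∀ i, (inner ℝ (p i) (p i) : ℝ) = a) ∧
      ∀ i j, i ≠ j → (inner ℝ (p i) (p j) : ℝ) = -a / 3 := by
  obtain ⟨hsum, ℓ, hℓ, hd⟩ := hp
  have hd2 : ∀ i j, i ≠ j → (inner ℝ (p i) (p i) : ℝ) - 2 * inner ℝ (p i) (p j)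
      + inner ℝ (p j) (p j) = ℓ ^ 2 := by
    intro i j hij
    have := hd i j hij
    rw [dist_eq_norm] at this
    rw [← this, norm_sub_sq_real, real_inner_self_eq_norm_sq, real_inner_self_eq_norm_sq]
  have hs : ∀ i, (inner ℝ (p i) (p 0) : ℝ) + inner ℝ (p i) (p 1) + inner ℝ (p i) (p 2)
      + inner ℝ (p i) (p 3) = 0 := by
    intro i
    rw [← inner_add_right, ← inner_add_right, ← inner_add_right, ← Fin.sum_univ_four, hsum,
      inner_zero_right]
  have s0 := hs 0
  have s1 := hs 1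
  have s2 := hs 2
  have s3 := hs 3
  have d01 := hd2 0 1 (by decide)
  have d02 := hd2 0 2 (by decide)
  have d03 := hd2 0 3 (by decide)
  have d12 := hd2 1 2 (by decide)
  have d13 := hd2 1 3 (by decide)
  have d23 := hd2 2 3 (by decide)
  rw [real_inner_comm (p 0) (p 1)] at s1
  rw [real_inner_comm (p 0) (p 2), real_inner_comm (p 1) (p 2)] at s2
  rw [real_inner_comm (p 0) (p 3), real_inner_comm (p 1) (p 3), real_inner_comm (p 2) (p 3)] at s3
  have hℓ2 : 0 < ℓ ^ 2 := by positivity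
  refine ⟨3 * ℓ ^ 2 / 8, by positivity, ?_, ?_⟩
  · intro i
    fin_cases i
    · simp only [Fin.zero_eta]; linarith
    · simp only [Fin.mk_one]; linarith
    · change (inner ℝ (p 2) (p 2) : ℝ) = _; linarith
    · change (inner ℝ (p 3) (p 3) : ℝ) = _; linarith
  · have key : ∀ i j, i < j → (inner ℝ (p i) (p j) : ℝ) = -(3 * ℓ ^ 2 / 8) / 3 := by
      intro i j hij
      fin_cases i <;> fin_cases j <;> first | (exact absurd hij (by decide)) | skip
      · change (inner ℝ (p 0) (p 1) : ℝ) = _; linarith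
      · change (inner ℝ (p 0) (p 2) : ℝ) = _; linarith
      · change (inner ℝ (p 0) (p 3) : ℝ) = _; linarith
      · change (inner ℝ (p 1) (p 2) : ℝ) = _; linarith
      · change (inner ℝ (p 1) (p 3) : ℝ) = _; linarith
      · change (inner ℝ (p 2) (p 3) : ℝ) = _; linarith
    intro i j hij
    rcases lt_or_gt_of_ne hij with h | h
    · exact key i j h
    · rw [real_inner_comm]
      exact key j i h

/-- The frame identity. -/
lemma frame (p : Fin 4 → E 3) (a : ℝ) (ha : 0 < a) (h1 : ∀ i, (inner ℝ (p i) (p i) : ℝ) = a)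
    (h2 : ∀ i j, i ≠ j → (inner ℝ (p i) (p j) : ℝ) = -a / 3) (u : E 3) :
    ∑ i, (inner ℝ u (p i) : ℝ) ^ 2 = 4 * a / 3 * ‖u‖ ^ 2 := by
  -- the first three vectors are a basis
  have hli : LinearIndependent ℝ (fun i : Fin 3 => p i.castSucc) := by
    rw [Fintype.linearIndependent_iff]
    intro g hg
    rw [Fin.sum_univ_three] at hg
    change g 0 • p 0 + g 1 • p 1 + g 2 • p 2 = 0 at hg
    have k0 : (inner ℝ (p 0) (g 0 • p 0 + g 1 • p 1 + g 2 • p 2) : ℝ) = 0 := by
      rw [hg, inner_zero_right]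
    have k1 : (inner ℝ (p 1) (g 0 • p 0 + g 1 • p 1 + g 2 • p 2) : ℝ) = 0 := by
      rw [hg, inner_zero_right]
    have k2 : (inner ℝ (p 2) (g 0 • p 0 + g 1 • p 1 + g 2 • p 2) : ℝ) = 0 := by
      rw [hg, inner_zero_right]
    simp only [inner_add_right, inner_smul_right] at k0 k1 k2
    rw [h1, h2 0 1 (by decide), h2 0 2 (by decide)] at k0
    rw [h1, h2 1 0 (by decide), h2 1 2 (by decide)] at k1
    rw [h1, h2 2 0 (by decide), h2 2 1 (by decide)] at k2
    have m0 : g 0 - g 1 / 3 - g 2 / 3 = 0 := by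
      apply mul_left_cancel₀ ha.ne'
      linarith
    have m1 : g 1 - g 0 / 3 - g 2 / 3 = 0 := by
      apply mul_left_cancel₀ ha.ne'
      linarith
    have m2 : g 2 - g 0 / 3 - g 1 / 3 = 0 := by
      apply mul_left_cancel₀ ha.ne'
      linarith
    intro i
    fin_cases i
    · change g 0 = 0; linarith
    · change g 1 = 0; linarith
    · change g 2 = 0; linarith
  have htop : Submodule.span ℝ (range fun i : Fin 3 => p i.castSucc) = ⊤ :=
    hli.span_eq_top_of_card_eq_finrank' (by simp)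
  have hu : u ∈ Submodule.span ℝ (range fun i : Fin 3 => p i.castSucc) := by
    rw [htop]; exact Submodule.mem_top
  rw [Submodule.mem_span_range_iff_exists_fun] at hu
  obtain ⟨c, hc⟩ := hu
  rw [Fin.sum_univ_three] at hc
  have hc' : u = c 0 • p 0 + c 1 • p 1 + c 2 • p 2 := hc.symm
  have i0 : (inner ℝ u (p 0) : ℝ) = a * (c 0 - c 1 / 3 - c 2 / 3) := by
    rw [hc']
    simp only [inner_add_left, inner_smul_left, conj_trivial]
    rw [h1, h2 1 0 (by decide), h2 2 0 (by decide)]; ring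
  have i1 : (inner ℝ u (p 1) : ℝ) = a * (c 1 - c 0 / 3 - c 2 / 3) := by
    rw [hc']
    simp only [inner_add_left, inner_smul_left, conj_trivial]
    rw [h1, h2 0 1 (by decide), h2 2 1 (by decide)]; ring
  have i2 : (inner ℝ u (p 2) : ℝ) = a * (c 2 - c 0 / 3 - c 1 / 3) := by
    rw [hc']
    simp only [inner_add_left, inner_smul_left, conj_trivial]
    rw [h1, h2 0 2 (by decide), h2 1 2 (by decide)]; ring
  have i3 : (inner ℝ u (p 3) : ℝ) = a * (-(c 0 + c 1 + c 2) / 3) := by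
    rw [hc']
    simp only [inner_add_left, inner_smul_left, conj_trivial]
    rw [h2 0 3 (by decide), h2 1 3 (by decide), h2 2 3 (by decide)]; ring
  have hn : ‖u‖ ^ 2 = c 0 * (inner ℝ u (p 0)) + c 1 * inner ℝ u (p 1) + c 2 * inner ℝ u (p 2) := by
    rw [← real_inner_self_eq_norm_sq]
    conv_lhs => rw [show (inner ℝ u u : ℝ) = inner ℝ u (c 0 • p 0 + c 1 • p 1 + c 2 • p 2) by
      rw [← hc']]
    simp only [inner_add_right, inner_smul_right]
  rw [hn, Fin.sum_univ_four, i0, i1, i2, i3]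
  ring

lemma pos_neg (t : ℝ) : ∃ p n : ℝ, 0 ≤ p ∧ 0 ≤ n ∧ t = p - n ∧ |t| = p + n ∧ p * n = 0 := by
  rcases le_total 0 t with h | h
  · exact ⟨t, 0, h, le_rfl, by ring, by rw [abs_of_nonneg h]; ring, by ring⟩
  · exact ⟨0, -t, le_rfl, by linarith, by ring, by rw [abs_of_nonpos h]; ring, by ring⟩

lemma sq_abs_sum (t0 t1 t2 t3 : ℝ) (hs : t0 + t1 + t2 + t3 = 0) :
    2 * (t0 ^ 2 + t1 ^ 2 + t2 ^ 2 + t3 ^ 2) ≤ (|t0| + |t1| + |t2| + |t3|) ^ 2 := by
  obtain ⟨p0, n0, a0, b0, c0, d0, e0⟩ := pos_neg t0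
  obtain ⟨p1, n1, a1, b1, c1, d1, e1⟩ := pos_neg t1
  obtain ⟨p2, n2, a2, b2, c2, d2, e2⟩ := pos_neg t2
  obtain ⟨p3, n3, a3, b3, c3, d3, e3⟩ := pos_neg t3
  rw [d0, d1, d2, d3]
  have f0 : t0 ^ 2 = p0 ^ 2 + n0 ^ 2 := by rw [c0]; linear_combination (-2) * e0
  have f1 : t1 ^ 2 = p1 ^ 2 + n1 ^ 2 := by rw [c1]; linear_combination (-2) * e1
  have f2 : t2 ^ 2 = p2 ^ 2 + n2 ^ 2 := by rw [c2]; linear_combination (-2) * e2
  have f3 : t3 ^ 2 = p3 ^ 2 + n3 ^ 2 := by rw [c3]; linear_combination (-2) * e3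
  rw [f0, f1, f2, f3]
  have hP : p0 ^ 2 + p1 ^ 2 + p2 ^ 2 + p3 ^ 2 ≤ (p0 + p1 + p2 + p3) ^ 2 := by
    nlinarith [mul_nonneg a0 a1, mul_nonneg a0 a2, mul_nonneg a0 a3, mul_nonneg a1 a2,
      mul_nonneg a1 a3, mul_nonneg a2 a3]
  have hN : n0 ^ 2 + n1 ^ 2 + n2 ^ 2 + n3 ^ 2 ≤ (n0 + n1 + n2 + n3) ^ 2 := by
    nlinarith [mul_nonneg b0 b1, mul_nonneg b0 b2, mul_nonneg b0 b3, mul_nonneg b1 b2,
      mul_nonneg b1 b3, mul_nonneg b2 b3]
  have hPN : n0 + n1 + n2 + n3 = p0 + p1 + p2 + p3 := by linarith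
  have e : (p0 + n0 + (p1 + n1) + (p2 + n2) + (p3 + n3)) ^ 2
      = 2 * (p0 + p1 + p2 + p3) ^ 2 + 2 * (n0 + n1 + n2 + n3) ^ 2 := by
    have : p0 + n0 + (p1 + n1) + (p2 + n2) + (p3 + n3) = 2 * (p0 + p1 + p2 + p3) := by linarith
    rw [this, hPN]
    ring
  rw [e]
  linarith

/-- Bounds for the width of a regular rhombic dodecahedron. -/
lemma regular_bounds (p : Fin 4 → E 3) (hp : IsCentredRegularSimplex p) :
    ∃ a : ℝ, 0 < a ∧ ∀ u : E 3, (∑ i, |(inner ℝ u (p i) : ℝ)|) ^ 2 ≤ 16 * a / 3 * ‖u‖ ^ 2 ∧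
      8 * a / 3 * ‖u‖ ^ 2 ≤ (∑ i, |(inner ℝ u (p i) : ℝ)|) ^ 2 := by
  obtain ⟨a, ha, h1, h2⟩ := gram p hp
  refine ⟨a, ha, ?_⟩
  intro u
  have hf := frame p a ha h1 h2 u
  have hs : (inner ℝ u (p 0) : ℝ) + inner ℝ u (p 1) + inner ℝ u (p 2) + inner ℝ u (p 3) = 0 := by
    rw [← inner_add_right, ← inner_add_right, ← inner_add_right, ← Fin.sum_univ_four, hp.1,
      inner_zero_right]
  rw [Fin.sum_univ_four] at hf ⊢
  set t0 : ℝ := inner ℝ u (p 0)
  set t1 : ℝ := inner ℝ u (p 1)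
  set t2 : ℝ := inner ℝ u (p 2)
  set t3 : ℝ := inner ℝ u (p 3)
  have q0 := sq_abs t0
  have q1 := sq_abs t1
  have q2 := sq_abs t2
  have q3 := sq_abs t3
  constructor
  · nlinarith [sq_nonneg (|t0| - |t1|), sq_nonneg (|t0| - |t2|), sq_nonneg (|t0| - |t3|),
      sq_nonneg (|t1| - |t2|), sq_nonneg (|t1| - |t3|), sq_nonneg (|t2| - |t3|)]
  · -- (∑ |t|)² ≥ 2 ∑ t²
    have key : 2 * (t0 ^ 2 + t1 ^ 2 + t2 ^ 2 + t3 ^ 2) ≤ (|t0| + |t1| + |t2| + |t3|) ^ 2 := by
      exact sq_abs_sum t0 t1 t2 t3 hs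
    calc 8 * a / 3 * ‖u‖ ^ 2 = 2 * (4 * a / 3 * ‖u‖ ^ 2) := by ring
      _ = 2 * (t0 ^ 2 + t1 ^ 2 + t2 ^ 2 + t3 ^ 2) := by rw [← hf]
      _ ≤ _ := key

lemma not_regular (lam : ℝ) (hlam : 0 < lam) : ¬ IsRegular (zonotope (gen lam (1 / 5))) := by
  rintro ⟨v, p, hp, hZ⟩
  obtain ⟨a, ha, hb⟩ := regular_bounds p hp
  have hw := width_eq (gen lam (1 / 5)) p v hZ
  -- the first axis
  have w1 := hw !₂[1, 0, 0]
  have w2 := hw !₂[1, 1 / 5, 1]
  have b1 := (hb !₂[1, 0, 0]).1
  have b2 := (hb !₂[1, 1 / 5, 1]).2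
  rw [← w1] at b1
  rw [← w2] at b2
  rw [norm_sq3, Fin.sum_univ_four] at b1 b2
  simp only [inner3] at b1 b2
  simp [gen] at b1 b2
  have hl : |lam| = lam := abs_of_pos hlam
  have c1 : |(1:ℝ) + 5⁻¹| = 6 / 5 := by rw [abs_of_pos (by norm_num)]; norm_num
  have c2 : |(-1:ℝ) + 5⁻¹| = 4 / 5 := by rw [abs_of_neg (by norm_num)]; norm_num
  rw [hl, c1, c2] at b1
  have d1 : |lam * (1 + 5⁻¹) + 5⁻¹ * lam + lam| = 12 / 5 * lam := by
    rw [abs_of_pos (by positivity)]; ring
  have d2 : |lam * (1 + 5⁻¹) + -(5⁻¹ * lam) + -lam| = 0 := by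
    have : lam * (1 + 5⁻¹) + -(5⁻¹ * lam) + -lam = 0 := by ring
    rw [this, abs_zero]
  have d3 : |lam * (-1 + 5⁻¹) + 5⁻¹ * lam + -lam| = 8 / 5 * lam := by
    have : lam * (-1 + 5⁻¹) + 5⁻¹ * lam + -lam = -(8 / 5 * lam) := by ring
    rw [this, abs_neg, abs_of_pos (by positivity)]
  have d4 : |lam * (-1 + 5⁻¹) + -(5⁻¹ * lam) + lam| = 0 := by
    have : lam * (-1 + 5⁻¹) + -(5⁻¹ * lam) + lam = 0 := by ring
    rw [this, abs_zero]
  rw [d1, d2, d3, d4] at b2
  have hl2 : 0 < lam ^ 2 := by positivity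
  nlinarith

lemma gen_zero_regular (lam : ℝ) (hlam : 0 < lam) : IsCentredRegularSimplex (gen lam 0) := by
  refine ⟨?_, lam * Real.sqrt 8, by positivity, ?_⟩
  · rw [Fin.sum_univ_four]
    ext j
    fin_cases j <;> simp [gen]
  · intro i j hij
    rw [dist_eq_norm]
    have h8 : Real.sqrt 8 ^ 2 = 8 := Real.sq_sqrt (by norm_num)
    have h : ‖gen lam 0 i - gen lam 0 j‖ ^ 2 = (lam * Real.sqrt 8) ^ 2 := by
      rw [mul_pow, h8, norm_sq3]
      fin_cases i <;> fin_cases j <;> first | (exact absurd rfl hij) | skip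
      all_goals
        simp [gen]
        ring
    exact (pow_left_inj₀ (norm_nonneg _) (by positivity) two_ne_zero).mp h

lemma image_zero_add (Z : Set (E 3)) : (fun z => (0 : E 3) + z) '' Z = Z := by
  simp

/-- **In `ℝ³` there are a unit-volume rhombic dodecahedron that is not regular and a unit-volume
regular one with the same circumradius.** -/
theorem result : ∃ d : ℕ, 2 ≤ d ∧ ∃ Z Z' : Set (E d),
    IsRhombicDodecahedron Z ∧ volume Z = 1 ∧ ¬ IsRegular Z ∧
    IsRhombicDodecahedron Z' ∧ volume Z' = 1 ∧ IsRegular Z' ∧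
    circumradius Z = circumradius Z' := by
  obtain ⟨lam, hlam, hl3⟩ : ∃ lam : ℝ, 0 < lam ∧ 16 * lam ^ 3 = 1 := by
    refine ⟨(1 / 16 : ℝ) ^ ((1:ℝ) / 3), by positivity, ?_⟩
    rw [← Real.rpow_natCast, ← Real.rpow_mul (by norm_num)]
    norm_num
  refine ⟨3, by norm_num, zonotope (gen lam (1 / 5)), zonotope (gen lam 0), ?_, ?_, ?_, ?_, ?_,
    ?_, ?_⟩
  · exact ⟨0, gen lam (1 / 5), span_gen lam _ hlam, (image_zero_add _).symm⟩
  · rw [volume_gen lam _ hlam (by norm_num) (by norm_num), hl3, ENNReal.ofReal_one]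
  · exact not_regular lam hlam
  · exact ⟨0, gen lam 0, span_gen lam _ hlam, (image_zero_add _).symm⟩
  · rw [volume_gen lam _ hlam (by norm_num) (by norm_num), hl3, ENNReal.ofReal_one]
  · exact ⟨0, gen lam 0, gen_zero_regular lam hlam, (image_zero_add _).symm⟩
  · rw [circumradius_gen lam _ hlam (by norm_num) (by norm_num),
      circumradius_gen lam _ hlam (by norm_num) (by norm_num)]

end Pool.Agent.Results.MP_de3f1f_gt.NonregularMinimiser
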